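import Pool.Agent.H77.TP.Cov

/-!
# Functions `ρ` supported on dyadic blocks
-/

set_option autoImplicit false

open MeasureTheory Filter Set
open scoped ENNReal NNReal Topology

namespace Pool.Agent.H77.TP

/-- `ρ (m) / m` is `δ i` for `2 ^ i ≤ m < 2 ^ i + L i` and zero elsewhere. -/
noncomputable def rho (L : ℕ → ℕ) (δ : ℕ → ℝ) (m : ℕ) : ℝ :=
  if m < 2 ^ Nat.log 2 m + L (Nat.log 2 m) then m * δ (Nat.log 2 m) else 0

/-- The solutions of the inequality for one summand. -/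
def Sol (ρ : ℕ → ℝ) (θ : ℝ) : Set (ℕ × ℕ) :=
  {p | 1 ≤ p.1 ∧ 1 ≤ p.2 ∧ |(p.1 : ℝ) ^ θ - p.2| ≤ ρ p.1 / p.1}

theorem rho_nonneg {L : ℕ → ℕ} {δ : ℕ → ℝ} (hδ : ∀ i, 0 ≤ δ i) (m : ℕ) : 0 ≤ rho L δ m := by
  unfold rho
  split_ifs
  · have := hδ (Nat.log 2 m)
    positivity
  · exact le_rfl

theorem rho_block {L : ℕ → ℕ} {δ : ℕ → ℝ} {i t : ℕ} (hL : L i ≤ 2 ^ i) (ht : t < L i) :
    rho L δ (2 ^ i + t) / ((2 ^ i + t : ℕ) : ℝ) = δ i := by
  have h1 : Nat.log 2 (2 ^ i + t) = i := by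
    rw [Nat.log_eq_iff (Or.inr ⟨by norm_num, by positivity⟩)]
    exact ⟨by omega, by rw [pow_succ]; omega⟩
  unfold rho
  rw [h1, if_pos (by omega)]
  have : (((2 ^ i + t : ℕ)) : ℝ) ≠ 0 := by
    have : 0 < 2 ^ i + t := by positivity
    exact_mod_cast this.ne'
  field_simp

/-- The block `i` contributes `L i * δ i` to the sums. -/
theorem sum_ge {L : ℕ → ℕ} {δ : ℕ → ℝ} (hδ : ∀ i, 0 ≤ δ i) {i M : ℕ} (hL : L i ≤ 2 ^ i)
    (hM : 2 ^ (i + 1) ≤ M) : L i * δ i ≤ ∑ m ∈ Finset.Icc 1 M, rho L δ m / m := by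
  have h1 : ∑ t ∈ Finset.range (L i), rho L δ (2 ^ i + t) / ((2 ^ i + t : ℕ) : ℝ) = L i * δ i := by
    rw [Finset.sum_congr rfl fun t ht => rho_block hL (Finset.mem_range.1 ht), Finset.sum_const,
      Finset.card_range, nsmul_eq_mul]
  rw [← h1, ← Finset.sum_image (f := fun m : ℕ => rho L δ m / (m : ℝ))
    (g := fun t => 2 ^ i + t) (fun a _ b _ h => by simpa using h)]
  apply Finset.sum_le_sum_of_subset_of_nonneg
  · intro m hm
    obtain ⟨t, ht, rfl⟩ := Finset.mem_image.1 hm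
    rw [Finset.mem_range] at ht
    rw [Finset.mem_Icc]
    rw [pow_succ] at hM
    have : 0 < 2 ^ i := by positivity
    omega
  · intro m _ _
    have := rho_nonneg hδ (L := L) m
    positivity

/-- Powers vary little on short intervals. -/
theorem rpow_near {M a L θ θ0 : ℝ} (hM : 1 ≤ M) (ha : M ≤ a) (haL : a ≤ M + L) (h0 : 0 ≤ θ)
    (hθ : θ ≤ θ0) (h1 : θ0 ≤ 1) : |a ^ θ - M ^ θ| ≤ L * M ^ (θ0 - 1) := by
  have hM0 : 0 < M := by linarith
  have hL0 : 0 ≤ L := by linarith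
  have h2 : M ^ θ ≤ a ^ θ := Real.rpow_le_rpow hM0.le ha h0
  rw [abs_of_nonneg (by linarith)]
  have h3 : a = M * (1 + (a - M) / M) := by
    field_simp
    ring
  have h4 : 0 ≤ (a - M) / M := div_nonneg (by linarith) hM0.le
  have h5 : a ^ θ = M ^ θ * (1 + (a - M) / M) ^ θ := by
    conv_lhs => rw [h3]
    rw [Real.mul_rpow hM0.le (by linarith)]
  have h6 := rpow_one_add_le_one_add_mul_self (s := (a - M) / M) (by linarith) h0 (hθ.trans h1)
  have h7 : 0 < M ^ θ := Real.rpow_pos_of_pos hM0 θ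
  have h8 : a ^ θ - M ^ θ ≤ M ^ θ * (θ * ((a - M) / M)) := by
    rw [h5]
    nlinarith
  refine h8.trans ?_
  have h9 : M ^ θ * (θ * ((a - M) / M)) = θ * (a - M) * (M ^ θ / M) := by ring
  have h10 : M ^ θ / M = M ^ (θ - 1) := by
    rw [Real.rpow_sub hM0, Real.rpow_one]
  rw [h9, h10]
  have h11 : M ^ (θ - 1) ≤ M ^ (θ0 - 1) := Real.rpow_le_rpow_of_exponent_le hM (by linarith)
  have h12 : θ * (a - M) ≤ L := by nlinarith
  have h13 : 0 < M ^ (θ - 1) := Real.rpow_pos_of_pos hM0 _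
  exact mul_le_mul h12 h11 h13.le hL0

/-- If there are infinitely many solutions then infinitely many of the numbers `2 ^ (i θ)` are
close to integers. -/
theorem freq_of_infinite {L : ℕ → ℕ} {δ : ℕ → ℝ} (hδ : ∀ i, 0 ≤ δ i) {θ θ0 : ℝ} (h0 : 0 < θ)
    (hθ : θ ≤ θ0) (h1 : θ0 ≤ 1)
    (hη : ∀ᶠ i in atTop, δ i + L i * ((2 : ℝ) ^ i) ^ (θ0 - 1) ≤ 1 / 2)
    (hC : θ ∉ range (fun p : ℕ × ℕ => Real.log p.2 / Real.log p.1))
    (hinf : (Sol (rho L δ) θ).Infinite) :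
    ∃ᶠ i : ℕ in atTop, ∃ b : ℕ, 1 ≤ b ∧ (b : ℝ) ≤ 2 * 2 ^ (i * θ0) ∧
      |((2 : ℝ) ^ i) ^ θ - b| ≤ δ i + L i * ((2 : ℝ) ^ i) ^ (θ0 - 1) := by
  by_contra hcon
  rw [not_frequently] at hcon
  obtain ⟨i0, hi0⟩ := eventually_atTop.1 (hcon.and hη)
  apply hinf
  -- the first coordinates are bounded
  have hbd : ∀ p ∈ Sol (rho L δ) θ, p.1 < 2 ^ (i0 + 1) := by
    rintro ⟨a, b⟩ ⟨ha, hb, h⟩
    simp only at ha hb h ⊢
    by_contra hlarge
    push Not at hlarge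
    set i := Nat.log 2 a with hi
    have ha0 : a ≠ 0 := by omega
    have h2i : 2 ^ i ≤ a := Nat.pow_log_le_self 2 ha0
    have hii : i0 ≤ i := by
      have : i0 + 1 ≤ i := (Nat.le_log_iff_pow_le (by norm_num) ha0).2 hlarge
      omega
    have ha2 : 2 ≤ a := by
      have : 2 ^ 1 ≤ 2 ^ (i0 + 1) := Nat.pow_le_pow_right (by norm_num) (by omega)
      omega
    have har : (1 : ℝ) < a := by exact_mod_cast (by omega : 1 < a)
    by_cases hblk : a < 2 ^ i + L i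
    · -- in the block
      have h2 : rho L δ a / a = δ i := by
        unfold rho
        rw [← hi, if_pos hblk]
        field_simp
      rw [h2] at h
      have hMr : (1 : ℝ) ≤ (2 : ℝ) ^ i := one_le_pow₀ (by norm_num)
      have h3 := rpow_near (M := (2 : ℝ) ^ i) (a := a) (L := L i) (θ := θ) (θ0 := θ0) hMr
        (by exact_mod_cast h2i) (by exact_mod_cast hblk.le) h0.le hθ h1
      have h4 : |((2 : ℝ) ^ i) ^ θ - b| ≤ δ i + L i * ((2 : ℝ) ^ i) ^ (θ0 - 1) := by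
        have e : ((2 : ℝ) ^ i) ^ θ - b = ((a : ℝ) ^ θ - b) - ((a : ℝ) ^ θ - ((2 : ℝ) ^ i) ^ θ) := by
          ring
        rw [e]
        exact (abs_sub _ _).trans (add_le_add h h3)
      refine (hi0 i hii).1 ⟨b, hb, ?_, h4⟩
      have h5 := (abs_le.1 h4).1
      have h6 := (hi0 i hii).2
      have h7 : ((2 : ℝ) ^ i) ^ θ ≤ 2 ^ (i * θ0) := by
        rw [← Real.rpow_natCast, ← Real.rpow_mul (by norm_num)]
        apply Real.rpow_le_rpow_of_exponent_le (by norm_num)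
        exact mul_le_mul_of_nonneg_left hθ (Nat.cast_nonneg i)
      have h8 : (1 : ℝ) ≤ 2 ^ (i * θ0) := Real.one_le_rpow (by norm_num)
        (mul_nonneg (Nat.cast_nonneg i) (h0.le.trans hθ))
      linarith
    · -- outside of the blocks
      have h2 : rho L δ a = 0 := by
        unfold rho
        rw [← hi, if_neg hblk]
      rw [h2, zero_div] at h
      have h3 : (a : ℝ) ^ θ = b := by
        have := abs_nonpos_iff.1 h
        linarith
      apply hC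
      refine ⟨(a, b), ?_⟩
      simp only
      rw [← h3, Real.log_rpow (by linarith)]
      have : Real.log a ≠ 0 := (Real.log_pos har).ne'
      field_simp
  -- finitely many solutions
  set A := 2 ^ (i0 + 1) with hA
  set S : ℝ := ∑ a ∈ Finset.range A, ((a : ℝ) ^ θ + |rho L δ a / a|) with hS
  refine ((Set.finite_Iio A).prod (Set.finite_Iic ⌈S⌉₊)).subset ?_
  rintro ⟨a, b⟩ hp
  have ha := hbd _ hp
  obtain ⟨h2, h3, h4⟩ := hp
  simp only at ha h2 h3 h4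
  refine ⟨ha, ?_⟩
  have h5 : (a : ℝ) ^ θ + |rho L δ a / a| ≤ S :=
    Finset.single_le_sum (f := fun a : ℕ => (a : ℝ) ^ θ + |rho L δ a / a|)
      (fun a _ => by positivity) (Finset.mem_range.2 ha)
  have h6 : (b : ℝ) ≤ S := by
    have := (abs_le.1 h4).1
    have := le_abs_self (rho L δ a / a)
    linarith
  have h7 : (b : ℝ) ≤ ⌈S⌉₊ := h6.trans (Nat.le_ceil S)
  exact_mod_cast h7

/-- **The exceptional set.** -/
theorem hausdorff_null {s θ0 : ℝ} (hs : 0 < s) (hs1 : s ≤ 1) (hθ0 : 0 < θ0) (hθ1 : θ0 ≤ 1)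
    {L : ℕ → ℕ} {δ : ℕ → ℝ} (hδ : ∀ i, 0 ≤ δ i)
    (hη : ∀ᶠ i in atTop, δ i + L i * ((2 : ℝ) ^ i) ^ (θ0 - 1) ≤ 1 / 2)
    (hsum : Summable fun i : ℕ => (2 : ℝ) ^ (i * (θ0 * (1 - s))) *
      (δ i + L i * ((2 : ℝ) ^ i) ^ (θ0 - 1)) ^ s) :
    μH[s] {θ : ℝ | 0 < θ ∧ θ ≤ θ0 ∧ (Sol (rho L δ) θ).Infinite} = 0 := by
  have h1 := cover' hs hs1 hθ0 hθ1 (η := fun i => δ i + L i * ((2 : ℝ) ^ i) ^ (θ0 - 1))
    (fun i => by have := hδ i; positivity) hη hsum
  have h2 : μH[s] (range (fun p : ℕ × ℕ => Real.log p.2 / Real.log p.1)) = 0 := by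
    have := Measure.nullSingletonClass_hausdorff ℝ hs
    exact (countable_range _).measure_zero _
  refine measure_mono_null ?_ (measure_union_null h1 h2)
  rintro θ ⟨h3, h4, h5⟩
  by_cases hC : θ ∈ range (fun p : ℕ × ℕ => Real.log p.2 / Real.log p.1)
  · exact Or.inr hC
  · exact Or.inl (freq_of_infinite hδ h3 h4 hθ1 hη hC h5)

end Pool.Agent.H77.TP
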