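import Mathlib

/-!
# Coverings of the exponents `θ` for which `2 ^ (i θ)` is close to an integer
-/

set_option autoImplicit false

open MeasureTheory Filter Set
open scoped ENNReal NNReal Topology

namespace Pool.Agent.H77.TP

/-- The exponents for which `M ^ θ` has distance at most `η` from `b`. -/
noncomputable def J (M η : ℝ) (b : ℕ) : Set ℝ :=
  Icc (Real.log (b - η) / Real.log M) (Real.log (b + η) / Real.log M)

theorem mem_J {M η θ : ℝ} {b : ℕ} (hM : 1 < M) (hη : η ≤ 1 / 2) (hb : 1 ≤ b)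
    (h : |M ^ θ - b| ≤ η) : θ ∈ J M η b := by
  have hb' : (1 : ℝ) ≤ b := by exact_mod_cast hb
  have hl : 0 < Real.log M := Real.log_pos hM
  have hM0 : 0 < M := by linarith
  have h1 := abs_le.1 h
  have hlog : Real.log (M ^ θ) = θ * Real.log M := Real.log_rpow hM0 θ
  refine ⟨?_, ?_⟩
  · rw [div_le_iff₀ hl, ← hlog]
    exact Real.log_le_log (by linarith) (by linarith)
  · rw [le_div_iff₀ hl, ← hlog]
    exact Real.log_le_log (Real.rpow_pos_of_pos hM0 θ) (by linarith)

theorem diam_J {M η : ℝ} {b : ℕ} (hM : 1 < M) (h0 : 0 ≤ η) (hη : η ≤ 1 / 2) (hb : 1 ≤ b) :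
    Metric.ediam (J M η b) ≤ ENNReal.ofReal (4 * η / (b * Real.log M)) := by
  have hb' : (1 : ℝ) ≤ b := by exact_mod_cast hb
  have hl : 0 < Real.log M := Real.log_pos hM
  unfold J
  rw [Real.ediam_Icc]
  apply ENNReal.ofReal_le_ofReal
  rw [← sub_div, ← div_div]
  apply div_le_div_of_nonneg_right _ hl.le
  have h1 : 0 < (b : ℝ) - η := by linarith
  rw [← Real.log_div (by linarith) h1.ne']
  refine (Real.log_le_sub_one_of_pos (by positivity)).trans ?_
  have h2 : ((b : ℝ) + η) / (b - η) - 1 = 2 * η / (b - η) := by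
    field_simp
    ring
  rw [h2, div_le_div_iff₀ h1 (by linarith)]
  nlinarith

/-- **The covering lemma.** -/
theorem cover {s : ℝ} (hs : 0 < s) {η : ℕ → ℝ} (h0 : ∀ i, 0 ≤ η i)
    (hη : ∀ᶠ i in atTop, η i ≤ 1 / 2) (B : ℕ → ℕ)
    (hsum : Summable fun i : ℕ => ∑ b ∈ Finset.range (B i),
      (4 * η i / (((b + 1 : ℕ) : ℝ) * Real.log (2 ^ i))) ^ s) :
    μH[s] {θ : ℝ | ∃ᶠ i in atTop, ∃ b : ℕ, 1 ≤ b ∧ b ≤ B i ∧ |((2 : ℝ) ^ i) ^ θ - b| ≤ η i} = 0 := by
  classical
  set E := {θ : ℝ | ∃ᶠ i in atTop, ∃ b : ℕ, 1 ≤ b ∧ b ≤ B i ∧ |((2 : ℝ) ^ i) ^ θ - b| ≤ η i}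
    with hE
  set c : ℕ → ℝ := fun i => ∑ b ∈ Finset.range (B i),
      (4 * η i / (((b + 1 : ℕ) : ℝ) * Real.log (2 ^ i))) ^ s with hc
  have hc0 : ∀ i, 0 ≤ c i := fun i => Finset.sum_nonneg fun b _ => by
    have h1 : 0 ≤ Real.log ((2 : ℝ) ^ i) := Real.log_nonneg (one_le_pow₀ (by norm_num))
    have h2 := h0 i
    positivity
  obtain ⟨i0, hi0⟩ := eventually_atTop.1 hη
  set t : ℕ → (ℕ × ℕ) → Set ℝ := fun n p =>
    if p.2 + 1 ≤ B (p.1 + n) then J (2 ^ (p.1 + n)) (η (p.1 + n)) (p.2 + 1) else ∅ with ht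
  set r : ℕ → ℝ≥0∞ := fun n => ENNReal.ofReal (2 / (n * Real.log 2)) with hr
  have hrlim : Tendsto r atTop (𝓝 0) := by
    rw [hr, ← ENNReal.ofReal_zero]
    apply ENNReal.tendsto_ofReal
    apply Tendsto.div_atTop tendsto_const_nhds
    exact (tendsto_natCast_atTop_atTop).atTop_mul_const (Real.log_pos (by norm_num))
  have hg : ∀ n : ℕ, i0 ≤ n → 1 ≤ n → ∀ p : ℕ × ℕ, p.2 + 1 ≤ B (p.1 + n) →
      Metric.ediam (t n p) ≤ ENNReal.ofReal
        (4 * η (p.1 + n) / (((p.2 + 1 : ℕ) : ℝ) * Real.log (2 ^ (p.1 + n)))) := by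
    intro n hn hn1 p hp
    simp only [ht, if_pos hp]
    exact diam_J (one_lt_pow₀ (by norm_num) (by omega)) (h0 _) (hi0 _ (by omega)) (by omega)
  have hdiam : ∀ᶠ n in atTop, ∀ p, Metric.ediam (t n p) ≤ r n := by
    filter_upwards [eventually_ge_atTop i0, eventually_ge_atTop 1] with n hn hn1 p
    by_cases hp : p.2 + 1 ≤ B (p.1 + n)
    · refine (hg n hn hn1 p hp).trans ?_
      apply ENNReal.ofReal_le_ofReal
      have hl2 : 0 < Real.log 2 := Real.log_pos (by norm_num)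
      have hn' : (1 : ℝ) ≤ n := by exact_mod_cast hn1
      rw [Real.log_pow]
      have h2 := hi0 (p.1 + n) (by omega)
      have h3 := h0 (p.1 + n)
      have h4 : (n : ℝ) * Real.log 2 ≤
          ((p.2 + 1 : ℕ) : ℝ) * (((p.1 + n : ℕ) : ℝ) * Real.log 2) := by
        have h5 : (n : ℝ) ≤ ((p.1 + n : ℕ) : ℝ) := by
          push_cast
          linarith [Nat.cast_nonneg (α := ℝ) p.1]
        have h6 : (1 : ℝ) ≤ ((p.2 + 1 : ℕ) : ℝ) := by
          push_cast
          linarith [Nat.cast_nonneg (α := ℝ) p.2]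
        have h7 : (n : ℝ) * Real.log 2 ≤ ((p.1 + n : ℕ) : ℝ) * Real.log 2 :=
          mul_le_mul_of_nonneg_right h5 hl2.le
        have h8 : 0 ≤ ((p.1 + n : ℕ) : ℝ) * Real.log 2 := by positivity
        nlinarith
      exact div_le_div₀ (by norm_num) (by linarith) (by positivity) h4
    · simp only [ht, if_neg hp]
      simp
  have hcov : ∀ᶠ n in atTop, E ⊆ ⋃ p, t n p := by
    filter_upwards [eventually_ge_atTop i0, eventually_ge_atTop 1] with n hn hn1 θ hθ
    obtain ⟨i, hi, b, hb1, hb2, hb3⟩ := frequently_atTop.1 hθ n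
    rw [mem_iUnion]
    refine ⟨(i - n, b - 1), ?_⟩
    have h1 : i - n + n = i := by omega
    have h2 : b - 1 + 1 = b := by omega
    simp only [ht, h1, h2, if_pos hb2]
    exact mem_J (one_lt_pow₀ (by norm_num) (by omega)) (hi0 _ (by omega)) hb1 hb3
  have hmain := Measure.hausdorffMeasure_le_liminf_tsum s E r hrlim t hdiam hcov
  have hbound : ∀ᶠ n in atTop, ∑' p : ℕ × ℕ, Metric.ediam (t n p) ^ s ≤
      ∑' j : ℕ, ENNReal.ofReal (c (j + n)) := by
    filter_upwards [eventually_ge_atTop i0, eventually_ge_atTop 1] with n hn hn1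
    rw [ENNReal.tsum_prod']
    apply ENNReal.tsum_le_tsum
    intro j
    have h1 : ∀ b : ℕ, b ∉ Finset.range (B (j + n)) → Metric.ediam (t n (j, b)) ^ s = 0 := by
      intro b hb
      rw [Finset.mem_range, not_lt] at hb
      have : ¬ (b + 1 ≤ B (j + n)) := by omega
      simp only [ht, if_neg this]
      simp [hs]
    rw [tsum_eq_sum h1, hc]
    simp only
    rw [ENNReal.ofReal_sum_of_nonneg]
    · apply Finset.sum_le_sum
      intro b hb
      rw [Finset.mem_range] at hb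
      rw [← ENNReal.ofReal_rpow_of_nonneg _ hs.le]
      · exact ENNReal.rpow_le_rpow (hg n hn hn1 (j, b) (by simpa using hb)) hs.le
      · have h1 : 0 ≤ Real.log ((2 : ℝ) ^ (j + n)) := Real.log_nonneg (one_le_pow₀ (by norm_num))
        have h2 := h0 (j + n)
        positivity
    · intro b _
      have h1 : 0 ≤ Real.log ((2 : ℝ) ^ (j + n)) := Real.log_nonneg (one_le_pow₀ (by norm_num))
      have h2 := h0 (j + n)
      positivity
  have hlim : Tendsto (fun n => ∑' j : ℕ, ENNReal.ofReal (c (j + n))) atTop (𝓝 0) := by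
    apply ENNReal.tendsto_sum_nat_add (fun i => ENNReal.ofReal (c i))
    exact hsum.tsum_ofReal_ne_top
  refine le_antisymm (hmain.trans ?_) zero_le
  refine (liminf_le_liminf hbound).trans ?_
  rw [hlim.liminf_eq]

/-- **The covering lemma**, with the sums estimated. -/
theorem cover' {s θ0 : ℝ} (hs : 0 < s) (hs1 : s ≤ 1) (hθ0 : 0 < θ0) (hθ1 : θ0 ≤ 1) {η : ℕ → ℝ}
    (h0 : ∀ i, 0 ≤ η i) (hη : ∀ᶠ i in atTop, η i ≤ 1 / 2)
    (hsum : Summable fun i : ℕ => (2 : ℝ) ^ (i * (θ0 * (1 - s))) * η i ^ s) :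
    μH[s] {θ : ℝ | ∃ᶠ i : ℕ in atTop, ∃ b : ℕ, 1 ≤ b ∧ (b : ℝ) ≤ 2 * 2 ^ (i * θ0) ∧
      |((2 : ℝ) ^ i) ^ θ - b| ≤ η i} = 0 := by
  set B : ℕ → ℕ := fun i => ⌊2 * (2 : ℝ) ^ (i * θ0)⌋₊ with hB
  have hlog2 : 1 / 2 < Real.log 2 := by
    have := Real.log_two_gt_d9
    linarith
  have key : ∀ i : ℕ, 1 ≤ i → ∑ b ∈ Finset.range (B i),
      (4 * η i / (((b + 1 : ℕ) : ℝ) * Real.log (2 ^ i))) ^ s ≤
        40 * ((2 : ℝ) ^ (i * (θ0 * (1 - s))) * η i ^ s) := by
    intro i hi
    have hi' : (1 : ℝ) ≤ i := by exact_mod_cast hi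
    have hBi : (B i : ℝ) ≤ 2 * (2 : ℝ) ^ (i * θ0) := Nat.floor_le (by positivity)
    have hBpos : 1 ≤ B i := by
      rw [hB]
      apply Nat.le_floor
      have : (1 : ℝ) ≤ (2 : ℝ) ^ (i * θ0) := Real.one_le_rpow (by norm_num) (by positivity)
      push_cast
      linarith
    have hBr : (0 : ℝ) < B i := by exact_mod_cast hBpos
    set x : ℕ → ℝ := fun b => 4 * η i / (((b + 1 : ℕ) : ℝ) * Real.log (2 ^ i)) with hx
    have hlogi : Real.log ((2 : ℝ) ^ i) = i * Real.log 2 := Real.log_pow _ _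
    have hx0 : ∀ b, 0 ≤ x b := by
      intro b
      simp only [hx]
      rw [hlogi]
      have := h0 i
      positivity
    -- the sum of the lengths
    have hS : ∑ b ∈ Finset.range (B i), x b ≤ 16 * η i := by
      have h1 : ∑ b ∈ Finset.range (B i), x b =
          4 * η i / Real.log (2 ^ i) * ∑ b ∈ Finset.range (B i), (((b + 1 : ℕ) : ℝ))⁻¹ := by
        rw [Finset.mul_sum]
        apply Finset.sum_congr rfl
        intro b _
        simp only [hx]
        rw [div_mul_eq_div_div_swap, div_eq_mul_inv]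
      have h2 : ∑ b ∈ Finset.range (B i), (((b + 1 : ℕ) : ℝ))⁻¹ ≤ 1 + Real.log (B i) := by
        have := harmonic_le_one_add_log (B i)
        unfold harmonic at this
        push_cast at this ⊢
        exact this
      have h3 : Real.log (B i) ≤ (i + 1) * Real.log 2 := by
        have : (B i : ℝ) ≤ 2 ^ (i + 1) := by
          refine hBi.trans ?_
          rw [pow_succ, mul_comm]
          apply mul_le_mul_of_nonneg_right _ (by norm_num)
          rw [← Real.rpow_natCast]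
          exact Real.rpow_le_rpow_of_exponent_le (by norm_num) (by nlinarith)
        refine (Real.log_le_log hBr this).trans ?_
        rw [Real.log_pow]
        push_cast
        exact le_rfl
      rw [h1, hlogi]
      have h4 := h0 i
      have h5 : 0 ≤ 4 * η i / (i * Real.log 2) := by positivity
      refine (mul_le_mul_of_nonneg_left (h2.trans (add_le_add_right h3 1)) h5).trans ?_
      rw [div_mul_eq_mul_div, div_le_iff₀ (by positivity)]
      have h6 : 1 + (i + 1) * Real.log 2 ≤ 4 * (i * Real.log 2) := by nlinarith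
      nlinarith
    -- Jensen
    have hp : 1 ≤ 1 / s := by
      rw [le_div_iff₀ hs]
      linarith
    have hJ := Real.rpow_sum_le_const_mul_sum_rpow_of_nonneg (s := Finset.range (B i))
      (f := fun b => x b ^ s) hp (fun b _ => Real.rpow_nonneg (hx0 b) s)
    have h7 : ∀ b ∈ Finset.range (B i), (x b ^ s) ^ (1 / s) = x b := by
      intro b _
      rw [← Real.rpow_mul (hx0 b), mul_one_div_cancel hs.ne', Real.rpow_one]
    rw [Finset.sum_congr rfl h7, Finset.card_range] at hJ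
    have hY0 : 0 ≤ ∑ b ∈ Finset.range (B i), x b ^ s :=
      Finset.sum_nonneg fun b _ => Real.rpow_nonneg (hx0 b) s
    have hJ2 : (∑ b ∈ Finset.range (B i), x b ^ s) ^ (1 / s) ≤
        (B i : ℝ) ^ (1 / s - 1) * (16 * η i) :=
      hJ.trans (mul_le_mul_of_nonneg_left hS (by positivity))
    have hJ3 := Real.rpow_le_rpow (Real.rpow_nonneg hY0 _) hJ2 hs.le
    rw [← Real.rpow_mul hY0, one_div_mul_cancel hs.ne', Real.rpow_one,
      Real.mul_rpow (by positivity) (by have := h0 i; positivity), ← Real.rpow_mul hBr.le,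
      Real.mul_rpow (by norm_num) (h0 i)] at hJ3
    have he : (1 / s - 1) * s = 1 - s := by
      field_simp
    rw [he] at hJ3
    refine hJ3.trans ?_
    have h8 : (B i : ℝ) ^ (1 - s) ≤ 2 * (2 : ℝ) ^ (i * (θ0 * (1 - s))) := by
      refine (Real.rpow_le_rpow hBr.le hBi (by linarith)).trans ?_
      rw [Real.mul_rpow (by norm_num) (by positivity), ← Real.rpow_mul (by norm_num), mul_assoc]
      apply mul_le_mul_of_nonneg_right _ (by positivity)
      calc (2 : ℝ) ^ (1 - s) ≤ 2 ^ (1 : ℝ) :=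
            Real.rpow_le_rpow_of_exponent_le (by norm_num) (by linarith)
        _ = 2 := Real.rpow_one 2
    have h9 : (16 : ℝ) ^ s ≤ 16 := by
      calc (16 : ℝ) ^ s ≤ 16 ^ (1 : ℝ) :=
            Real.rpow_le_rpow_of_exponent_le (by norm_num) hs1
        _ = 16 := Real.rpow_one 16
    have h10 : 0 ≤ η i ^ s := Real.rpow_nonneg (h0 i) s
    have h11 : (0 : ℝ) < (2 : ℝ) ^ (i * (θ0 * (1 - s))) := by positivity
    calc (B i : ℝ) ^ (1 - s) * (16 ^ s * η i ^ s)
        ≤ (2 * (2 : ℝ) ^ (i * (θ0 * (1 - s)))) * (16 * η i ^ s) := by gcongr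
      _ ≤ 40 * ((2 : ℝ) ^ (i * (θ0 * (1 - s))) * η i ^ s) := by nlinarith [mul_nonneg h11.le h10]
  have hsum' : Summable fun i : ℕ => ∑ b ∈ Finset.range (B i),
      (4 * η i / (((b + 1 : ℕ) : ℝ) * Real.log (2 ^ i))) ^ s := by
    rw [← summable_nat_add_iff 1]
    refine Summable.of_nonneg_of_le (fun i => ?_) (fun i => key (i + 1) (by omega))
      (((summable_nat_add_iff 1).2 hsum).mul_left 40)
    refine Finset.sum_nonneg fun b _ => ?_
    have h1 : 0 ≤ Real.log ((2 : ℝ) ^ (i + 1)) := Real.log_nonneg (one_le_pow₀ (by norm_num))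
    have h2 := h0 (i + 1)
    positivity
  have := cover hs h0 hη B hsum'
  refine measure_mono_null ?_ this
  intro θ hθ
  refine hθ.mono ?_
  rintro i ⟨b, h1, h2, h3⟩
  exact ⟨b, h1, Nat.le_floor h2, h3⟩

end Pool.Agent.H77.TP
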