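import Pool.Agent.H77.TP.Blk

/-!
# The choice of the blocks
-/

set_option autoImplicit false

open MeasureTheory Filter Set
open scoped ENNReal NNReal Topology

namespace Pool.Agent.H77.TP

/-- The sum of the contributions of the blocks. -/
theorem sum_blocks {L : ℕ → ℕ} {δ : ℕ → ℝ} (hδ : ∀ i, 0 ≤ δ i) (hL : ∀ i, L i ≤ 2 ^ i) (k : ℕ) :
    ∑ i ∈ Finset.range k, L i * δ i ≤ ∑ m ∈ Finset.Ico 1 (2 ^ k), rho L δ m / m := by
  induction k with
  | zero => simp
  | succ k ih =>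
    rw [Finset.sum_range_succ, ← Finset.sum_Ico_consecutive _ (Nat.one_le_two_pow (n := k))
      (Nat.pow_le_pow_right (by norm_num) (Nat.le_succ k))]
    refine add_le_add ih ?_
    have h1 : ∑ t ∈ Finset.range (L k), rho L δ (2 ^ k + t) / ((2 ^ k + t : ℕ) : ℝ) =
        L k * δ k := by
      rw [Finset.sum_congr rfl fun t ht => rho_block (hL k) (Finset.mem_range.1 ht),
        Finset.sum_const, Finset.card_range, nsmul_eq_mul]
    rw [← h1, ← Finset.sum_image (f := fun m : ℕ => rho L δ m / (m : ℝ))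
      (g := fun t => 2 ^ k + t) (fun a _ b _ h => by simpa using h)]
    apply Finset.sum_le_sum_of_subset_of_nonneg
    · intro m hm
      obtain ⟨t, ht, rfl⟩ := Finset.mem_image.1 hm
      rw [Finset.mem_range] at ht
      rw [Finset.mem_Ico, pow_succ]
      have := hL k
      omega
    · intro m _ _
      have := rho_nonneg hδ (L := L) m
      positivity

theorem two_rpow (i : ℕ) (x : ℝ) : ((2 : ℝ) ^ i) ^ x = 2 ^ (i * x) := by
  rw [← Real.rpow_natCast, ← Real.rpow_mul (by norm_num)]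

/-- **Growth and dimension.** -/
theorem dim_part {θ0 κ : ℝ} (h0 : 0 < θ0) (hκ : 0 ≤ κ) (h1 : κ < 1 - θ0) :
    ∃ ρ : ℕ → ℝ, (∀ m, 0 ≤ ρ m) ∧ ¬ Summable (fun m : ℕ => ρ m / m) ∧
      (∀ M : ℕ, 2 ≤ M → (M : ℝ) ^ κ / 4 ≤ ∑ m ∈ Finset.Icc 1 M, ρ m / m) ∧
      dimH {θ : ℝ | 0 < θ ∧ θ ≤ θ0 ∧ (Sol ρ θ).Infinite} ≤
        ENNReal.ofReal (2 * θ0 / (1 + θ0 - κ)) := by
  set lam : ℝ := (1 - θ0 + κ) / 2 with hlam
  set μ : ℝ := (1 - θ0 - κ) / 2 with hμ
  have hμ0 : 0 < μ := by rw [hμ]; linarith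
  have hlam0 : 0 < lam := by rw [hlam]; linarith
  have hlam1 : lam < 1 := by rw [hlam]; linarith
  set L : ℕ → ℕ := fun i => ⌈(2 : ℝ) ^ (i * lam)⌉₊ with hLdef
  set δ : ℕ → ℝ := fun i => (2 : ℝ) ^ (-(i * μ)) with hδdef
  have hδ : ∀ i, 0 ≤ δ i := fun i => by simp only [hδdef]; positivity
  have hL : ∀ i, L i ≤ 2 ^ i := by
    intro i
    apply Nat.ceil_le.2
    push_cast
    rw [← Real.rpow_natCast 2 i]
    apply Real.rpow_le_rpow_of_exponent_le (by norm_num)
    nlinarith [Nat.cast_nonneg (α := ℝ) i]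
  have hLδ : ∀ i : ℕ, (2 : ℝ) ^ (i * κ) ≤ L i * δ i := by
    intro i
    have h2 : (2 : ℝ) ^ (i * lam) ≤ L i := Nat.le_ceil _
    have h3 : (2 : ℝ) ^ (i * κ) = (2 : ℝ) ^ (i * lam) * δ i := by
      simp only [hδdef]
      rw [← Real.rpow_add (by norm_num)]
      congr 1
      rw [hlam, hμ]
      ring
    rw [h3]
    exact mul_le_mul_of_nonneg_right h2 (hδ i)
  have hη : ∀ i : ℕ, δ i + L i * ((2 : ℝ) ^ i) ^ (θ0 - 1) ≤ 3 * (2 : ℝ) ^ (-(i * μ)) := by
    intro i
    have h2 : (L i : ℝ) ≤ 2 * (2 : ℝ) ^ (i * lam) := by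
      have h3 : (1 : ℝ) ≤ (2 : ℝ) ^ (i * lam) := Real.one_le_rpow (by norm_num) (by positivity)
      have h4 := (Nat.ceil_lt_add_one (show (0 : ℝ) ≤ (2 : ℝ) ^ (i * lam) by positivity)).le
      simp only [hLdef]
      linarith
    have h5 : (2 : ℝ) ^ (i * lam) * (2 : ℝ) ^ (i * (θ0 - 1)) = (2 : ℝ) ^ (-(i * μ)) := by
      rw [← Real.rpow_add (by norm_num)]
      congr 1
      rw [hlam, hμ]
      ring
    rw [two_rpow]
    have h6 : (L i : ℝ) * (2 : ℝ) ^ (i * (θ0 - 1)) ≤ 2 * (2 : ℝ) ^ (-(i * μ)) := by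
      rw [← h5, ← mul_assoc]
      exact mul_le_mul_of_nonneg_right h2 (by positivity)
    simp only [hδdef]
    linarith
  have hgeo : ∀ x : ℝ, 0 < x → Summable fun i : ℕ => (2 : ℝ) ^ (-(i * x)) := by
    intro x hx
    have h2 : (fun i : ℕ => (2 : ℝ) ^ (-(i * x))) = fun i : ℕ => ((2 : ℝ) ^ (-x)) ^ i := by
      funext i
      rw [← Real.rpow_natCast, ← Real.rpow_mul (by norm_num)]
      congr 1
      ring
    rw [h2]
    apply summable_geometric_of_lt_one (by positivity)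
    exact Real.rpow_lt_one_of_one_lt_of_neg (by norm_num) (by linarith)
  refine ⟨rho L δ, rho_nonneg hδ, ?_, ?_, ?_⟩
  · -- divergence
    intro hs
    have h2 : ∀ k : ℕ, (k : ℝ) ≤ ∑' m : ℕ, rho L δ m / m := by
      intro k
      have h3 : (k : ℝ) ≤ ∑ i ∈ Finset.range k, L i * δ i := by
        have h4 : ∑ _i ∈ Finset.range k, (1 : ℝ) ≤ ∑ i ∈ Finset.range k, L i * δ i := by
          apply Finset.sum_le_sum
          intro i _
          refine le_trans ?_ (hLδ i)
          exact Real.one_le_rpow (by norm_num) (by positivity)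
        simpa using h4
      refine h3.trans ((sum_blocks hδ hL k).trans ?_)
      apply hs.sum_le_tsum
      intro m _
      have := rho_nonneg hδ (L := L) m
      positivity
    obtain ⟨k, hk⟩ := exists_nat_gt (∑' m : ℕ, rho L δ m / m)
    exact absurd (h2 k) (not_le.2 hk)
  · -- growth
    intro M hM
    set j := Nat.log 2 M with hj
    have hj1 : 1 ≤ j := (Nat.le_log_iff_pow_le (by norm_num) (by omega)).2 (by simpa using hM)
    have h2 : 2 ^ j ≤ M := Nat.pow_log_le_self 2 (by omega)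
    have h3 : M < 2 ^ (j + 1) := Nat.lt_pow_succ_log_self (by norm_num) M
    have h4 : 2 ^ (j - 1 + 1) ≤ M := by rwa [Nat.sub_add_cancel hj1]
    refine le_trans ?_ (sum_ge hδ (hL (j - 1)) h4)
    refine le_trans ?_ (hLδ (j - 1))
    rw [div_le_iff₀ (by norm_num)]
    have h5 : (M : ℝ) ≤ 2 ^ (j + 1) := by exact_mod_cast h3.le
    calc (M : ℝ) ^ κ ≤ ((2 : ℝ) ^ (j + 1)) ^ κ := Real.rpow_le_rpow (by positivity) h5 hκ
      _ = (2 : ℝ) ^ (((j - 1 : ℕ) : ℝ) * κ + 2 * κ) := by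
          rw [two_rpow]
          congr 1
          rw [Nat.cast_sub hj1]
          push_cast
          ring
      _ = (2 : ℝ) ^ (((j - 1 : ℕ) : ℝ) * κ) * (2 : ℝ) ^ (2 * κ) := Real.rpow_add (by norm_num) _ _
      _ ≤ (2 : ℝ) ^ (((j - 1 : ℕ) : ℝ) * κ) * 4 := by
          apply mul_le_mul_of_nonneg_left _ (by positivity)
          calc (2 : ℝ) ^ (2 * κ) ≤ 2 ^ (2 : ℝ) :=
                Real.rpow_le_rpow_of_exponent_le (by norm_num) (by linarith)
            _ = 4 := by norm_num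
  · -- dimension
    have hD0 : 0 < 1 + θ0 - κ := by linarith
    have hD1 : 2 * θ0 / (1 + θ0 - κ) < 1 := by
      rw [div_lt_one hD0]
      linarith
    have hdim : ∀ s : ℝ≥0, 2 * θ0 / (1 + θ0 - κ) < s → (s : ℝ) < 1 →
        dimH {θ : ℝ | 0 < θ ∧ θ ≤ θ0 ∧ (Sol (rho L δ) θ).Infinite} ≤ s := by
      intro s hs hs1
      have hs0 : 0 < (s : ℝ) := lt_of_le_of_lt (by positivity) hs
      apply dimH_le_of_hausdorffMeasure_ne_top
      rw [hausdorff_null hs0 hs1.le h0 (by linarith) hδ]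
      · exact ENNReal.zero_ne_top
      · have h2 := (hgeo μ hμ0).tendsto_atTop_zero.eventually
          (gt_mem_nhds (show (0 : ℝ) < 1 / 6 by norm_num))
        filter_upwards [h2] with i hi
        linarith [hη i]
      · have hx : 0 < (s : ℝ) * μ - θ0 * (1 - s) := by
          rw [div_lt_iff₀ hD0] at hs
          have : (s : ℝ) * μ - θ0 * (1 - s) = (s * (1 + θ0 - κ) - 2 * θ0) / 2 := by
            rw [hμ]
            ring
          rw [this]
          linarith
        refine Summable.of_nonneg_of_le (fun i => ?_) (fun i => ?_)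
          ((hgeo _ hx).mul_left 3)
        · have := hδ i
          positivity
        · have h2 : 0 ≤ δ i + L i * ((2 : ℝ) ^ i) ^ (θ0 - 1) := by
            have := hδ i
            positivity
          have h3 := Real.rpow_le_rpow h2 (hη i) hs0.le
          rw [Real.mul_rpow (by norm_num) (by positivity), ← Real.rpow_mul (by norm_num)] at h3
          have h4 : (3 : ℝ) ^ (s : ℝ) ≤ 3 := by
            calc (3 : ℝ) ^ (s : ℝ) ≤ 3 ^ (1 : ℝ) :=
                  Real.rpow_le_rpow_of_exponent_le (by norm_num) hs1.le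
              _ = 3 := Real.rpow_one 3
          calc (2 : ℝ) ^ (i * (θ0 * (1 - s))) * (δ i + L i * ((2 : ℝ) ^ i) ^ (θ0 - 1)) ^ (s : ℝ)
              ≤ (2 : ℝ) ^ (i * (θ0 * (1 - s))) * (3 * (2 : ℝ) ^ (-(i * μ) * s)) := by
                apply mul_le_mul_of_nonneg_left _ (by positivity)
                refine h3.trans ?_
                exact mul_le_mul_of_nonneg_right h4 (by positivity)
            _ = 3 * ((2 : ℝ) ^ (i * (θ0 * (1 - s))) * (2 : ℝ) ^ (-(i * μ) * s)) := by ring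
            _ = 3 * (2 : ℝ) ^ (-(i * ((s : ℝ) * μ - θ0 * (1 - s)))) := by
                rw [← Real.rpow_add (by norm_num)]
                congr 2
                ring
    by_contra hcon
    rw [not_le] at hcon
    obtain ⟨r, hr1, hr2⟩ := ENNReal.lt_iff_exists_nnreal_btwn.1 hcon
    have hr3 : 2 * θ0 / (1 + θ0 - κ) < r := by
      have := (ENNReal.ofReal_lt_iff_lt_toReal (by positivity) ENNReal.coe_ne_top).1 hr1
      simpa using this
    set D : ℝ := 2 * θ0 / (1 + θ0 - κ) with hD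
    have hD2 : 0 ≤ (D + 1) / 2 := by positivity
    set s : ℝ≥0 := min r ⟨(D + 1) / 2, hD2⟩ with hs
    have hs1 : D < s := by
      rw [hs, NNReal.coe_min]
      apply lt_min hr3
      change D < (D + 1) / 2
      linarith
    have hs2 : (s : ℝ) < 1 := by
      rw [hs, NNReal.coe_min]
      refine (min_le_right _ _).trans_lt ?_
      change (D + 1) / 2 < 1
      linarith
    have h5 := hdim s hs1 hs2
    have h6 : (s : ℝ≥0∞) ≤ r := by exact_mod_cast min_le_left _ _
    exact absurd (hr2.trans_le (h5.trans h6)) (lt_irrefl _)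

/-- **All exponents below `Θ`.** -/
theorem ae_part {Θ : ℝ} (hΘ0 : 0 < Θ) (hΘ1 : Θ ≤ 1) {ψ : ℕ → ℝ}
    (hψ : ∀ ε : ℝ, 0 < ε → ∀ᶠ M : ℕ in atTop, ψ M ≤ (M : ℝ) ^ (1 - Θ + ε)) :
    ∃ ρ : ℕ → ℝ, (∀ m, 0 ≤ ρ m) ∧
      (∀ᶠ M : ℕ in atTop, ψ M ≤ ∑ m ∈ Finset.Icc 1 M, ρ m / m) ∧
      ∀ᵐ θ : ℝ, 0 < θ → θ < Θ → (Sol ρ θ).Finite := by
  have hne : ∀ i : ℕ, (Finset.Icc (2 ^ (i + 1)) (2 ^ (i + 2))).Nonempty := fun i =>
    Finset.nonempty_Icc.2 (Nat.pow_le_pow_right (by norm_num) (by omega))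
  set g : ℕ → ℝ := fun i => (Finset.Icc (2 ^ (i + 1)) (2 ^ (i + 2))).sup' (hne i)
    (fun m => max (ψ m) 0) with hg
  have hg0 : ∀ i, 0 ≤ g i := by
    intro i
    obtain ⟨m, hm⟩ := hne i
    exact (le_max_right (ψ m) 0).trans (Finset.le_sup' (fun m => max (ψ m) 0) hm)
  have hgψ : ∀ i m : ℕ, 2 ^ (i + 1) ≤ m → m ≤ 2 ^ (i + 2) → ψ m ≤ g i := by
    intro i m h1 h2
    exact (le_max_left (ψ m) 0).trans (Finset.le_sup' (fun m => max (ψ m) 0)
      (Finset.mem_Icc.2 ⟨h1, h2⟩))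
  have hgle : ∀ ε : ℝ, 0 < ε → ∀ᶠ i : ℕ in atTop, g i ≤ (2 : ℝ) ^ (i * (1 - Θ + ε)) := by
    intro ε hε
    obtain ⟨m0, hm0⟩ := eventually_atTop.1 (hψ (ε / 2) (by linarith))
    filter_upwards [eventually_ge_atTop m0, eventually_ge_atTop (⌈4 / ε⌉₊ + 2)] with i hi hi2
    apply Finset.sup'_le
    intro m hm
    rw [Finset.mem_Icc] at hm
    apply max_le _ (by positivity)
    have h1 : m0 ≤ m := by
      have : i + 1 < 2 ^ (i + 1) := Nat.lt_two_pow_self
      omega
    refine (hm0 m h1).trans ?_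
    have h2 : (m : ℝ) ≤ (2 : ℝ) ^ (i + 2) := by exact_mod_cast hm.2
    refine (Real.rpow_le_rpow (by positivity) h2 (by linarith)).trans ?_
    rw [two_rpow]
    apply Real.rpow_le_rpow_of_exponent_le (by norm_num)
    have hi' : 4 / ε + 2 ≤ i := by
      have h3 : ((⌈4 / ε⌉₊ + 2 : ℕ) : ℝ) ≤ i := by exact_mod_cast hi2
      push_cast at h3
      linarith [Nat.le_ceil (4 / ε)]
    have h4 : 4 + 2 * ε ≤ i * ε := by
      have h5 := mul_le_mul_of_nonneg_right hi' hε.le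
      rw [add_mul, div_mul_cancel₀ _ hε.ne'] at h5
      linarith
    push_cast
    nlinarith
  set L' : ℕ → ℕ := fun i => ⌈((i : ℝ) + 1) ^ 2 * g i⌉₊ with hL'
  have hL'le : ∀ ε : ℝ, 0 < ε → ∀ᶠ i : ℕ in atTop, (L' i : ℝ) ≤ (2 : ℝ) ^ (i * (1 - Θ + ε)) := by
    intro ε hε
    have hr : 1 < (2 : ℝ) ^ (ε / 2) := Real.one_lt_rpow (by norm_num) (by linarith)
    have h1 := (tendsto_pow_const_div_const_pow_of_one_lt 2 hr).eventually
      (gt_mem_nhds (show (0 : ℝ) < 1 / 5 by norm_num))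
    filter_upwards [h1, hgle (ε / 2) (by linarith), eventually_ge_atTop 1] with i h2 h3 h4
    have hi : (1 : ℝ) ≤ i := by exact_mod_cast h4
    have h5 : ((2 : ℝ) ^ (ε / 2)) ^ i = (2 : ℝ) ^ (i * (ε / 2)) := by
      rw [← Real.rpow_natCast, ← Real.rpow_mul (by norm_num), mul_comm]
    rw [h5, div_lt_iff₀ (by positivity)] at h2
    have h6 : ((i : ℝ) + 1) ^ 2 + 1 ≤ (2 : ℝ) ^ (i * (ε / 2)) := by nlinarith
    have h7 : (1 : ℝ) ≤ (2 : ℝ) ^ (i * (1 - Θ + ε / 2)) :=
      Real.one_le_rpow (by norm_num) (mul_nonneg (by positivity) (by linarith))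
    have h8 : ((i : ℝ) + 1) ^ 2 * g i ≤ ((i : ℝ) + 1) ^ 2 * (2 : ℝ) ^ (i * (1 - Θ + ε / 2)) :=
      mul_le_mul_of_nonneg_left h3 (by positivity)
    have h9 := (Nat.ceil_lt_add_one (show (0 : ℝ) ≤ ((i : ℝ) + 1) ^ 2 * g i from
      mul_nonneg (by positivity) (hg0 i))).le
    have h10 : (2 : ℝ) ^ (i * (1 - Θ + ε)) =
        (2 : ℝ) ^ (i * (ε / 2)) * (2 : ℝ) ^ (i * (1 - Θ + ε / 2)) := by
      rw [← Real.rpow_add (by norm_num)]
      congr 1
      ring
    rw [h10]
    simp only [hL']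
    nlinarith
  set L : ℕ → ℕ := fun i => min (2 ^ i) (L' i) with hLdef
  set δ : ℕ → ℝ := fun i => 1 / ((i : ℝ) + 1) ^ 2 with hδdef
  have hδ : ∀ i, 0 ≤ δ i := fun i => by simp only [hδdef]; positivity
  have hL : ∀ i, L i ≤ 2 ^ i := fun i => min_le_left _ _
  have hδsum : Summable δ := by
    have h1 := (summable_nat_add_iff 1).2 (Real.summable_one_div_nat_pow.2 (by norm_num : 1 < 2))
    refine h1.congr fun i => ?_
    simp only [hδdef]
    push_cast
    rfl
  refine ⟨rho L δ, rho_nonneg hδ, ?_, ?_⟩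
  · obtain ⟨i0, hi0⟩ := eventually_atTop.1 (hL'le Θ hΘ0)
    filter_upwards [eventually_ge_atTop (2 ^ (i0 + 1))] with M hM
    set j := Nat.log 2 M with hj
    have hM0 : M ≠ 0 := by
      have : 0 < 2 ^ (i0 + 1) := by positivity
      omega
    have hj1 : i0 + 1 ≤ j := (Nat.le_log_iff_pow_le (by norm_num) hM0).2 hM
    have h2 : 2 ^ j ≤ M := Nat.pow_log_le_self 2 hM0
    have h3 : M < 2 ^ (j + 1) := Nat.lt_pow_succ_log_self (by norm_num) M
    have h4 : 2 ^ (j - 1 + 1) ≤ M := by rwa [Nat.sub_add_cancel (by omega)]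
    have h5 : M ≤ 2 ^ (j - 1 + 2) := by
      have : j - 1 + 2 = j + 1 := by omega
      rw [this]
      exact h3.le
    refine (hgψ (j - 1) M h4 h5).trans (le_trans ?_ (sum_ge hδ (hL (j - 1)) h4))
    have h6 : L (j - 1) = L' (j - 1) := by
      apply min_eq_right
      have h7 := hi0 (j - 1) (by omega)
      rw [sub_add_cancel, mul_one, Real.rpow_natCast] at h7
      exact_mod_cast h7
    rw [h6]
    have h8 : (((j - 1 : ℕ) : ℝ) + 1) ^ 2 * g (j - 1) ≤ L' (j - 1) := Nat.le_ceil _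
    have h9 := mul_le_mul_of_nonneg_right h8 (hδ (j - 1))
    refine le_trans (le_of_eq ?_) h9
    simp only [hδdef]
    field_simp
  · have hall : ∀ n : ℕ, ∀ᵐ θ : ℝ,
        ¬ (0 < θ ∧ θ ≤ Θ - Θ / ((n : ℝ) + 2) ∧ (Sol (rho L δ) θ).Infinite) := by
      intro n
      set θ0 : ℝ := Θ - Θ / ((n : ℝ) + 2) with hθ0
      have hn : (0 : ℝ) < Θ / ((n : ℝ) + 2) := by positivity
      have hn1 : Θ / ((n : ℝ) + 2) ≤ Θ / 2 :=
        div_le_div_of_nonneg_left hΘ0.le (by norm_num) (by linarith [Nat.cast_nonneg (α := ℝ) n])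
      have h0 : 0 < θ0 := by rw [hθ0]; linarith
      have h1 : θ0 < Θ := by rw [hθ0]; linarith
      have hgeo : Summable fun i : ℕ => (2 : ℝ) ^ (i * (-((Θ - θ0) / 2))) := by
        have h2 : (fun i : ℕ => (2 : ℝ) ^ (i * (-((Θ - θ0) / 2)))) =
            fun i : ℕ => ((2 : ℝ) ^ (-((Θ - θ0) / 2))) ^ i := by
          funext i
          rw [← Real.rpow_natCast, ← Real.rpow_mul (by norm_num), mul_comm]
        rw [h2]
        apply summable_geometric_of_lt_one (by positivity)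
        exact Real.rpow_lt_one_of_one_lt_of_neg (by norm_num) (by linarith)
      have hηsum : Summable fun i : ℕ => δ i + L i * ((2 : ℝ) ^ i) ^ (θ0 - 1) := by
        apply hδsum.add
        obtain ⟨i1, hi1⟩ := eventually_atTop.1 (hL'le ((Θ - θ0) / 2) (by linarith))
        rw [← summable_nat_add_iff i1]
        refine Summable.of_nonneg_of_le (fun i => by positivity) (fun i => ?_)
          ((summable_nat_add_iff i1).2 hgeo)
        have h2 : (L (i + i1) : ℝ) ≤
            (2 : ℝ) ^ (((i + i1 : ℕ) : ℝ) * (1 - Θ + (Θ - θ0) / 2)) := by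
          refine le_trans ?_ (hi1 (i + i1) (by omega))
          exact_mod_cast min_le_right _ _
        rw [two_rpow]
        refine (mul_le_mul_of_nonneg_right h2 (by positivity)).trans (le_of_eq ?_)
        rw [← Real.rpow_add (by norm_num)]
        congr 1
        ring
      have h3 := hausdorff_null one_pos le_rfl h0 (h1.le.trans hΘ1) hδ
        (by
          filter_upwards [hηsum.tendsto_atTop_zero.eventually
            (gt_mem_nhds (show (0 : ℝ) < 1 / 2 by norm_num))] with i hi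
          exact hi.le)
        (by
          refine hηsum.congr fun i => ?_
          simp)
      rw [hausdorffMeasure_real] at h3
      exact measure_eq_zero_iff_ae_notMem.1 h3
    rw [← ae_all_iff] at hall
    filter_upwards [hall] with θ hθ h0 h1
    by_contra hinf
    obtain ⟨n, hn⟩ := exists_nat_gt (Θ / (Θ - θ))
    apply hθ n
    refine ⟨h0, ?_, hinf⟩
    have h2 : 0 < Θ - θ := by linarith
    have h3 : Θ / ((n : ℝ) + 2) ≤ Θ - θ := by
      rw [div_le_iff₀ (by positivity)]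
      rw [div_lt_iff₀ h2] at hn
      nlinarith
    linarith

end Pool.Agent.H77.TP
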